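import Pool.Agent.helper55.GL.Spec

set_option autoImplicit false

namespace Pool.Agent.GL

open SimpleGraph

theorem SML_choose {W : Type} (K : SimpleGraph W) (n : ℕ) : ex n K ≤ n.choose 2 := by
  classical
  have h := (extremalNumber_le_iff (V := Fin n) K (n.choose 2)).2 (fun G _ _ => by
    have h1 := G.card_edgeFinset_le_card_choose_two
    simpa using h1)
  simpa using h

theorem SML (hLIN : LIN_stmt) : SML_stmt := by
  intro V W H K C N g h2 hK
  refine ⟨4 * C + 3 * N, fun n => ?_⟩
  rcases Nat.lt_or_ge n 2 with hn | hn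
  · have h0 := SML_choose K n
    have h1 : n.choose 2 = 0 := Nat.choose_eq_zero_of_lt hn
    rw [h1] at h0
    exact le_trans h0 (Nat.zero_le _)
  have hL := hLIN V H h2 n hn
  rcases Nat.lt_or_ge n N with hN | hN
  · have h0 := SML_choose K n
    have h1 : n.choose 2 ≤ n * n := by
      rw [Nat.choose_two_right]
      exact le_trans (Nat.div_le_self _ _) (Nat.mul_le_mul le_rfl (Nat.sub_le _ _))
    calc ex n K ≤ n * n := le_trans h0 h1
      _ ≤ N * (3 * ex n H) := Nat.mul_le_mul hN.le hL
      _ ≤ (4 * C + 3 * N) * (g n + ex n H) := by nlinarith [Nat.zero_le (C * g n), Nat.zero_le (C * ex n H), Nat.zero_le (N * g n)]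
  · calc ex n K ≤ C * (g n + ex n H + n) := hK n hN
      _ ≤ C * (g n + ex n H + 3 * ex n H) := Nat.mul_le_mul le_rfl (by omega)
      _ ≤ (4 * C + 3 * N) * (g n + ex n H) := by nlinarith [Nat.zero_le (C * g n), Nat.zero_le (N * ex n H), Nat.zero_le (N * g n)]

end Pool.Agent.GL
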